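import Pool.Agent.CVH.Main

/-! # Cohen and Hechler extensions have different theories -/

namespace Pool.Agent.Results.MP_1e4122_lc.CohenHechler

open Pool.Agent.CVH
open Pool.Agent.ZFM (Fm Sat IsSub)

universe u

/-- There is one sentence `φ` such that for each well-founded model `V` of `ZF` there is an ordinal
`μ` such that for all ordinals `κ, l ≥ μ`, all generic extensions `W` of `V` by the Cohen forcing
`ℂ^κ` and all generic extensions `W'` of `V` by the finite support iteration of Hechler forcing of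
length `l`: `φ` is true in `W` and false in `W'`, hence `W` and `W'` are not elementarily
equivalent. -/
theorem result : ∃ φ : Fm, ∀ (V : Type u) [WZ V], ∃ μ : V, IsOrd μ ∧
    ∀ κ l : V, IsOrd κ → IsSub μ κ → IsOrd l → IsSub μ l →
    ∀ (W W' : Type u) [WZ W] [WZ W'] (j : V → W) (j' : V → W') (P L : V) (P' L' : V → V)
      (G : W) (G' : W'), IsCohen κ P L → GenExt j P L G →
      IsHechler l P' L' → GenExt j' (P' l) (L' l) G' →
      (∀ v : ℕ → W, Sat φ v) ∧ (∀ v : ℕ → W', ¬ Sat φ v) ∧ ¬ ElemEq W W' := by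
  obtain ⟨φ, hφ⟩ := main.{u}
  refine ⟨φ, fun V _ => ?_⟩
  obtain ⟨μ, hμ, h1, h2⟩ := hφ V
  refine ⟨μ, hμ, fun κ l hκ hμκ hl hμl W W' _ _ j j' P L P' L' G G' hC hG hH hG' => ?_⟩
  have h3 := h1 κ hκ hμκ W j P L G hC hG
  have h4 := h2 l hl hμl W' j' P' L' G' hH hG'
  exact ⟨h3, h4, fun h => h4 (fun _ => G') ((h φ).1 h3 fun _ => G')⟩

end Pool.Agent.Results.MP_1e4122_lc.CohenHechler
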